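import Mathlib
import Pool.Agent.Y19.TP.Stm

/-! TP-NORM (job 10379 of helper19). -/

set_option autoImplicit false

namespace Pool.Agent.Y891.TP

open Polynomial Function
open Pool.Agent.Y19.TP

section

variable {U : Type} [Field U]

theorem coeff_lin (f : U[X]) (a b : U) (n : ℕ) :
    (f.comp (C a * X + C b)).coeff n = (taylor b f).coeff n * a ^ n := by
  have h1 : f.comp (C a * X + C b) = (taylor b f).comp (C a * X) := by
    rw [taylor_apply, Polynomial.comp_assoc]
    simp
  rw [h1, comp_C_mul_X_coeff]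

theorem tay_top {f : U[X]} {d : ℕ} (hf : f.natDegree = d) (b : U) :
    (taylor b f).coeff d = f.leadingCoeff := by
  rw [← hf]
  exact coeff_taylor_natDegree b f

theorem tay_next {f : U[X]} {d : ℕ} (hd : 1 ≤ d) (hf : f.natDegree = d) (b : U) :
    (taylor b f).coeff (d - 1) = d * f.leadingCoeff * b + f.coeff (d - 1) := by
  rw [taylor_coeff]
  have h1 : (hasseDeriv (d - 1) f).natDegree ≤ 1 := by
    refine (natDegree_hasseDeriv_le f (d - 1)).trans ?_
    omega
  have h2 := eq_X_add_C_of_natDegree_le_one h1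
  rw [h2, hasseDeriv_coeff, hasseDeriv_coeff]
  have e1 : 1 + (d - 1) = d := by omega
  have e2 : 0 + (d - 1) = d - 1 := by omega
  have e3 : d.choose (d - 1) = d := by
    obtain ⟨k, rfl⟩ : ∃ k, d = k + 1 := ⟨d - 1, by omega⟩
    simp
  rw [e1, e2, e3, Nat.choose_self]
  simp only [leadingCoeff, hf, Nat.cast_one, one_mul, eval_add, eval_mul, eval_C, eval_X]

theorem coeff_C_pos {n : ℕ} (hn : 1 ≤ n) (b : U) : (C b : U[X]).coeff n = 0 := by
  rw [coeff_C]
  exact if_neg (by omega)

end

/-- TP-NORM, first part -/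
theorem t_NORM : NORM := by
  intro U _ _ _ d hd f hf
  have hf0 : f ≠ 0 := by
    rintro rfl
    simp at hf
    omega
  have hlc : f.leadingCoeff ≠ 0 := leadingCoeff_ne_zero.2 hf0
  have hdU : (d : U) ≠ 0 := by
    rw [Nat.cast_ne_zero]
    omega
  obtain ⟨a, ha⟩ := IsAlgClosed.exists_pow_nat_eq f.leadingCoeff⁻¹ (n := d - 1) (by omega)
  have ha0 : a ≠ 0 := by
    rintro rfl
    rw [zero_pow (by omega)] at ha
    exact inv_ne_zero hlc ha.symm
  set b : U := -(f.coeff (d - 1)) / (d * f.leadingCoeff) with hb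
  set F := f.comp (C a * X + C b) with hF
  have hnF : F.natDegree = d := by
    rw [hF, natDegree_comp, natDegree_linear ha0, mul_one, hf]
  have hng : (C a⁻¹ * (F - C b)).natDegree = d := by
    rw [natDegree_C_mul (inv_ne_zero ha0), natDegree_sub_C, hnF]
  refine ⟨C a⁻¹ * (F - C b), ⟨a, b, ha0, ?_⟩, ?_, hng, ?_⟩
  · rw [← mul_assoc, ← C_mul, mul_inv_cancel₀ ha0, C_1, one_mul, sub_add_cancel]
  · rw [Monic, leadingCoeff, hng, coeff_C_mul, coeff_sub, coeff_C_pos (by omega), sub_zero, hF,
      coeff_lin, tay_top hf]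
    have h1 : a ^ d = a ^ (d - 1) * a := by
      rw [← pow_succ]
      congr 1
      omega
    rw [h1, ha]
    field_simp
  · rw [coeff_C_mul, coeff_sub, coeff_C_pos (by omega), sub_zero, hF, coeff_lin,
      tay_next (by omega) hf]
    have h1 : (d : U) * f.leadingCoeff * b + f.coeff (d - 1) = 0 := by
      rw [hb]
      field_simp
      ring
    rw [h1, zero_mul, mul_zero]

/-- TP-NORM, second part -/
theorem t_RIG : RIG := by
  intro U _ _ d hd f g hfm hfd hf1 hgm hgd hg1 ⟨a, b, ha0, h⟩ i
  have hdU : (d : U) ≠ 0 := by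
    rw [Nat.cast_ne_zero]
    omega
  have hc : ∀ n, (taylor b f).coeff n * a ^ n = a * g.coeff n + (C b : U[X]).coeff n := by
    intro n
    rw [← coeff_lin, h, coeff_add, coeff_C_mul]
  have h1 := hc d
  rw [tay_top hfd, hfm.leadingCoeff, coeff_C_pos (by omega), add_zero, one_mul] at h1
  have hgc : g.coeff d = 1 := by
    have := hgm.coeff_natDegree
    rwa [hgd] at this
  rw [hgc, mul_one] at h1
  have h2 : a ^ (d - 1) = 1 := by
    have h3 : a ^ d = a ^ (d - 1) * a := by
      rw [← pow_succ]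
      congr 1
      omega
    rw [h3] at h1
    exact mul_right_cancel₀ ha0 (by rw [h1, one_mul])
  have h4 := hc (d - 1)
  rw [tay_next (by omega) hfd, hfm.leadingCoeff, coeff_C_pos (by omega), hg1, hf1, h2] at h4
  have h5 : (d : U) * b = 0 := by simpa using h4
  have hb : b = 0 := (mul_eq_zero.1 h5).resolve_left hdU
  subst hb
  have h6 : f.coeff i * a ^ i = a * g.coeff i := by
    have := hc i
    rw [taylor_zero] at this
    simpa using this
  have h7 : (f.coeff i * a ^ i) ^ (d - 1) = (a * g.coeff i) ^ (d - 1) := by rw [h6]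
  rw [mul_pow, mul_pow, ← pow_mul, mul_comm i, pow_mul, h2, one_pow, one_mul, mul_one] at h7
  exact h7

end Pool.Agent.Y891.TP
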