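import Mathlib
import Pool.Agent.Y19.TP.Stm2
import Pool.Agent.Y19.TP.Asm
import Pool.Agent.Y891.TP.NORM

/-! TP-VART (job 10880 of helper19). -/

set_option autoImplicit false

namespace Pool.Agent.Y891.TP

open Polynomial Function
open Pool.Agent.Y19.TP

section

variable {U : Type} [Field U]

theorem der_ne {d : ℕ} (hd : 2 ≤ d) [CharZero U] {g : U[X]} (hg : g.natDegree = d) :
    derivative g ≠ 0 := by
  intro h
  have := natDegree_eq_zero_of_derivative_eq_zero h
  omega

theorem eval_sh (f : U[X]) (b z : U) :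
    (f.comp (X + C b) - C b).eval z = f.eval (z + b) - b := by
  simp [eval_comp]

theorem iter_sh (f : U[X]) (b z : U) (n : ℕ) :
    (fun w : U => (f.comp (X + C b) - C b).eval w)^[n] z =
      (fun w : U => f.eval w)^[n] (z + b) - b := by
  induction n with
  | zero => simp
  | succ n ih => rw [iterate_succ_apply', iterate_succ_apply', ih, eval_sh, sub_add_cancel]

theorem der_sh (f : U[X]) (b z : U) :
    (derivative (f.comp (X + C b) - C b)).eval z = (derivative f).eval (z + b) := by
  simp [derivative_comp, eval_comp]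

/-- The centred polynomials with relations, critical point at zero instead. -/
theorem fin_sh [CharZero U] {d : ℕ} (hd : 2 ≤ d) (T N : ℕ)
    (hV : {f : U[X] | f.Monic ∧ f.natDegree = d ∧ f.coeff (d - 1) = 0 ∧
      ∀ c : U, (derivative f).eval c = 0 →
        (fun z : U => f.eval z)^[T + N] c = (fun z : U => f.eval z)^[T] c}.Finite) :
    {f : U[X] | f.Monic ∧ f.natDegree = d ∧ f.coeff 1 = 0 ∧
      ∀ c : U, (derivative f).eval c = 0 →
        (fun z : U => f.eval z)^[T + N] c = (fun z : U => f.eval z)^[T] c}.Finite := by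
  refine (hV.biUnion (t := fun g => (fun c : U => g.comp (X + C c) - C c) ''
    {c | (derivative g).eval c = 0}) fun g hg => ?_).subset ?_
  · exact (finite_setOf_isRoot (der_ne hd hg.2.1)).image _
  · rintro f ⟨h1, h2, h3, h4⟩
    have hdU : (d : U) ≠ 0 := by
      rw [Nat.cast_ne_zero]
      omega
    set b : U := -(f.coeff (d - 1)) / d with hb
    have e1 : f.comp (X + C b) = taylor b f := by rw [taylor_apply]
    have hn : (f.comp (X + C b) - C b).natDegree = d := by
      rw [natDegree_sub_C, e1, natDegree_taylor, h2]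
    rw [Set.mem_iUnion₂]
    refine ⟨f.comp (X + C b) - C b, ⟨?_, hn, ?_, ?_⟩, -b, ?_, ?_⟩
    · rw [Monic, leadingCoeff, hn, coeff_sub, coeff_C_pos (by omega), sub_zero, e1, tay_top h2]
      exact h1
    · rw [coeff_sub, coeff_C_pos (by omega), sub_zero, e1, tay_next (by omega) h2,
        h1.leadingCoeff, hb]
      field_simp
      ring
    · intro c hc
      rw [der_sh] at hc
      rw [iter_sh, iter_sh, h4 _ hc]
    · show (derivative (f.comp (X + C b) - C b)).eval (-b) = 0
      rw [der_sh, neg_add_cancel, ← coeff_zero_eq_eval_zero, coeff_derivative, zero_add, h3,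
        zero_mul]
    · simp only
      rw [sub_comp, Polynomial.comp_assoc, C_comp, add_comp, X_comp, C_comp, map_neg,
        neg_add_cancel_right, comp_X]
      ring

theorem iter_map {U' : Type} [Field U'] (σ : U →+* U') (f : U[X]) (z : U) (n : ℕ) :
    (fun w : U' => (f.map σ).eval w)^[n] (σ z) = σ ((fun w : U => f.eval w)^[n] z) := by
  induction n with
  | zero => rfl
  | succ n ih => rw [iterate_succ_apply', iterate_succ_apply', ih, eval_map, eval₂_at_apply]

end

/-- TP-VART -/
theorem t_VART : VAR → ISO → VART := by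
  intro hVAR hISO p _ d hd T N hN
  obtain ⟨l, hl, hlp⟩ := Nat.exists_infinite_primes (d + 1)
  haveI := Fact.mk hlp
  obtain ⟨e⟩ := hISO p l
  have h1 := fin_sh hd T N (hVAR (PadicAlgCl l) d hd (tame l d hl) (unbdd l) T N hN)
  set σ : PadicAlgCl p →+* PadicAlgCl l := e.toRingHom with hσ
  refine (h1.preimage (f := fun f : (PadicAlgCl p)[X] => f.map σ)
    (Polynomial.map_injective σ σ.injective).injOn).subset ?_
  rintro f ⟨g1, g2, g3, g4⟩
  refine ⟨g1.map σ, ?_, ?_, ?_⟩
  · rw [natDegree_map, g2]
  · rw [coeff_map, g3, map_zero]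
  · intro c hc
    obtain ⟨z, rfl⟩ : ∃ z, σ z = c := e.surjective c
    rw [derivative_map, eval_map, eval₂_at_apply, map_eq_zero_iff σ σ.injective] at hc
    rw [iter_map, iter_map, g4 z hc]

end Pool.Agent.Y891.TP
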